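import Pool.Agent.W670.ML.Defs

set_option autoImplicit false

/-! Project ML (MP_af4c59_nt), part SF: the number of subfields is bounded in terms of the degree. -/

namespace Pool.Agent.W109.ML

open Pool.Agent.W670.ML

theorem sf_aux (F Ω : Type) [Field F] [CharZero F] [Field Ω] [Algebra F Ω] [IsAlgClosure F Ω]
    (N : ℕ) (M : IntermediateField F Ω) (hM : Module.finrank F M = N) (hN : 0 < N) :
    {K : IntermediateField F Ω | K ≤ M}.Finite ∧
      {K : IntermediateField F Ω | K ≤ M}.ncard ≤ 2 ^ N := by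
  classical
  have : FiniteDimensional F M := Module.finite_of_finrank_pos (by rw [hM]; exact hN)
  have : IsAlgClosed Ω := IsAlgClosure.isAlgClosed F
  have : IsGalois F Ω := inferInstance
  have hcard : Fintype.card (↥M →ₐ[F] Ω) = N := by
    rw [← hM]
    exact AlgHom.card F M Ω
  let Φ : IntermediateField F Ω → Set (↥M →ₐ[F] Ω) :=
    fun K => {φ | ∀ x : M, (x : Ω) ∈ K → φ x = (x : Ω)}
  have key : ∀ K : IntermediateField F Ω, K ≤ M → ∀ x : M,
      ((x : Ω) ∈ K ↔ ∀ φ ∈ Φ K, φ x = (x : Ω)) := by
    intro K hK x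
    constructor
    · intro hx φ hφ
      exact hφ x hx
    · intro h
      by_contra hx
      have h1 : (x : Ω) ∉ IntermediateField.fixedField K.fixingSubgroup := by
        rw [InfiniteGalois.fixedField_fixingSubgroup]
        exact hx
      rw [IntermediateField.mem_fixedField_iff] at h1
      push Not at h1
      obtain ⟨σ, hσ, hne⟩ := h1
      apply hne
      have h2 : (σ.toAlgHom.comp M.val) ∈ Φ K := by
        intro y hy
        rw [IntermediateField.mem_fixingSubgroup_iff] at hσ
        exact hσ _ hy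
      exact h _ h2
  have hinj : Set.InjOn Φ {K : IntermediateField F Ω | K ≤ M} := by
    intro K hK K' hK' heq
    apply le_antisymm
    · intro z hz
      have hzM : z ∈ M := hK hz
      have := (key K hK ⟨z, hzM⟩).1 hz
      rw [heq] at this
      exact (key K' hK' ⟨z, hzM⟩).2 this
    · intro z hz
      have hzM : z ∈ M := hK' hz
      have := (key K' hK' ⟨z, hzM⟩).1 hz
      rw [← heq] at this
      exact (key K hK ⟨z, hzM⟩).2 this
  have hfin : (Set.univ : Set (Set (↥M →ₐ[F] Ω))).Finite := Set.finite_univ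
  have hmaps : Set.MapsTo Φ {K : IntermediateField F Ω | K ≤ M} Set.univ :=
    fun _ _ => Set.mem_univ _
  refine ⟨Set.Finite.of_injOn hmaps hinj hfin, ?_⟩
  calc ({K : IntermediateField F Ω | K ≤ M}).ncard
      ≤ (Set.univ : Set (Set (↥M →ₐ[F] Ω))).ncard :=
        Set.ncard_le_ncard_of_injOn Φ (fun _ _ => Set.mem_univ _) hinj hfin
    _ = 2 ^ N := by
        rw [Set.ncard_univ, Nat.card_eq_fintype_card, Fintype.card_set, hcard]

theorem sf : S_SF := by
  intro N
  refine ⟨2 ^ N, ?_⟩
  intro Ω _ _ _ M hM hN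
  refine sf_aux ℚ Ω N M ?_ hN
  rw [← hM]

end Pool.Agent.W109.ML
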